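import Pool.Agent.helper60.DA.SpecJ

/-!
# Row dj:DH
-/

namespace Pool.Agent.helper60.DA

open Polynomial Finset Pool.Agent.helper60.DK

theorem DH_aux1 (R : Type) [CommRing R] (v : R) (hv : 2 * v = -1) (j : ℕ) :
    4 ^ j * aeval v (Dz (2 * j)) =
      ((∑ k ∈ range (2 * j + 1), (((2 * j).choose k * (2 * j + k).choose k : ℕ) : ℤ) *
        2 ^ (2 * j - k) * (-1) ^ k : ℤ) : R) := by
  unfold Dz
  rw [map_sum, mul_sum]
  push_cast
  refine sum_congr rfl fun k hk => ?_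
  have hk' : k ≤ 2 * j := by
    have := mem_range.1 hk
    omega
  have e1 : (4 : R) ^ j = 2 ^ (2 * j - k) * 2 ^ k := by
    rw [← pow_add, Nat.sub_add_cancel hk', pow_mul]
    norm_num
  rw [map_mul, map_pow, aeval_X, aeval_C, e1, ← hv, mul_pow]
  push_cast
  ring

theorem DH_aux2 (j : ℕ) :
    (4 : ℚ) ^ j * aeval (-1 / 2 : ℚ) (Dz (2 * j)) = (-1) ^ j * (j.centralBinom : ℚ) := by
  have e0 : (1 : ℚ) + 2 * (-1 / 2) = 0 := by norm_num
  have rec3 : ∀ k : ℕ, ((k : ℚ) + 1 + 1) * aeval (-1 / 2 : ℚ) (Dz (k + 2))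
      = -((k : ℚ) + 1) * aeval (-1 / 2 : ℚ) (Dz k) := by
    intro k
    have a1 := congrArg (aeval (-1 / 2 : ℚ)) (rel_one k)
    have a2 := congrArg (aeval (-1 / 2 : ℚ)) (rel_two (k + 1))
    simp only [map_mul, map_add, map_sub, map_one, aeval_X, map_ofNat, map_natCast] at a1 a2
    rw [e0] at a1 a2
    push_cast at a2
    linear_combination a1 - a2
  induction j with
  | zero =>
    have : Dz (2 * 0) = 1 := by
      unfold Dz
      simp
    rw [this]
    simp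
  | succ j ih =>
    have r1 := rec3 (2 * j)
    have h1 : ((j : ℚ) + 1) * ((j + 1).centralBinom : ℚ) = 2 * (2 * (j : ℚ) + 1) * (j.centralBinom : ℚ) := by
      exact_mod_cast Nat.succ_mul_centralBinom_succ j
    have h2 : ((j : ℚ) + 1) ≠ 0 := by positivity
    have e : 2 * (j + 1) = 2 * j + 2 := by ring
    rw [e]
    push_cast at r1
    apply mul_left_cancel₀ h2
    have h3 : ((j : ℚ) + 1) * ((-1) ^ (j + 1) * ((j + 1).centralBinom : ℚ)) =
        (-1) ^ (j + 1) * (2 * (2 * (j : ℚ) + 1) * (j.centralBinom : ℚ)) := by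
      rw [← h1]
      ring
    rw [h3, pow_succ, pow_succ]
    linear_combination 2 * 4 ^ j * r1 - 2 * (2 * (j : ℚ) + 1) * ih

theorem DH_aux3 (j : ℕ) :
    (∑ k ∈ range (2 * j + 1), (((2 * j).choose k * (2 * j + k).choose k : ℕ) : ℤ) *
        2 ^ (2 * j - k) * (-1) ^ k : ℤ) = (-1) ^ j * (((2 * j).choose j : ℕ) : ℤ) := by
  have h1 := DH_aux1 ℚ (-1 / 2) (by norm_num) j
  rw [DH_aux2 j] at h1
  have h2 : (((-1) ^ j * (((2 * j).choose j : ℕ) : ℤ) : ℤ) : ℚ) = (-1) ^ j * (j.centralBinom : ℚ) := by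
    rw [Nat.centralBinom_eq_two_mul_choose]
    push_cast
    ring
  rw [← h2] at h1
  exact (Int.cast_injective h1).symm

theorem DH : DH_stmt := by
  intro R _ v hv j
  rw [DH_aux1 R v hv j, DH_aux3 j]
  push_cast
  ring

end Pool.Agent.helper60.DA
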